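import Pool.Agent.Helper97K9.ClawFree3
set_option autoImplicit false

/-!
Every claw-free cubic graph is (1,1,2,3)-packing colourable.
-/

namespace Pool.Agent.Results.MP_b5f1b3_co.ClawFreeCubic

open Pool.Agent.Helper97K9.ClawFree

universe u

/-- `X` is an `s`-packing of `G`: distinct vertices of `X` are at distance greater than `s`. -/
def IsPacking {V : Type u} (G : SimpleGraph V) (s : ℕ) (X : Set V) : Prop :=
  ∀ u ∈ X, ∀ v ∈ X, u ≠ v → (s : ℕ∞) < G.edist u v

/-- `G` is `(s 0, ..., s (k - 1))`-packing colourable: the vertices can be partitioned into `k`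
classes, possibly empty, such that the class `i` is an `s i`-packing. -/
def PackingColourable {V : Type u} (G : SimpleGraph V) {k : ℕ} (s : Fin k → ℕ) : Prop :=
  ∃ c : V → Fin k, ∀ i, IsPacking G (s i) {v | c v = i}

/-- `G` is claw-free: it has no induced subgraph isomorphic to `K_{1,3}`. -/
def ClawFree {V : Type u} (G : SimpleGraph V) : Prop :=
  IsEmpty (completeBipartiteGraph (Fin 1) (Fin 3) ↪g G)

theorem cf_of {V : Type u} [Fintype V] [DecidableEq V] (G : SimpleGraph V) [DecidableRel G.Adj]
    (hG : G.IsRegularOfDegree 3) (hc : ClawFree G) : CF G := by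
  refine ⟨fun v => ?_, fun v a b c hab hac hbc ha hb hc' => ?_⟩
  · have h1 := hG v
    rw [← SimpleGraph.card_neighborFinset_eq_degree, Finset.card_eq_three] at h1
    obtain ⟨a, b, c, h1, h2, h3, h4⟩ := h1
    refine ⟨a, b, c, h1, h2, h3, fun w => ?_⟩
    rw [← SimpleGraph.mem_neighborFinset, h4]
    simp
  · by_contra hcon
    push Not at hcon
    obtain ⟨n1, n2, n3⟩ := hcon
    have n1' : ¬ G.Adj b a := fun h => n1 h.symm
    have n2' : ¬ G.Adj c a := fun h => n2 h.symm
    have n3' : ¬ G.Adj c b := fun h => n3 h.symm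
    have key : ∀ x y : Fin 1 ⊕ Fin 3, G.Adj (Sum.elim (fun _ => v) ![a, b, c] x)
        (Sum.elim (fun _ => v) ![a, b, c] y) ↔
        (completeBipartiteGraph (Fin 1) (Fin 3)).Adj x y := by
      rintro (i | i) (j | j)
      · simp
      · fin_cases j <;> simp [ha, hb, hc']
      · fin_cases i <;> simp [ha.symm, hb.symm, hc'.symm]
      · fin_cases i <;> fin_cases j <;> simp [n1, n2, n3, n1', n2', n3']
    refine hc.false ⟨⟨Sum.elim (fun _ => v) ![a, b, c], ?_⟩, fun {x y} => key x y⟩
    · have na := ha.ne
      have nb := hb.ne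
      have nc := hc'.ne
      rintro (i | i) (j | j) hij
      · rw [Subsingleton.elim i j]
      · exfalso
        fin_cases j <;> simp_all
      · exfalso
        fin_cases i <;> simp_all
      · fin_cases i <;> fin_cases j <;> simp_all

theorem lt_edist {V : Type u} {G : SimpleGraph V} {k : ℕ} {u v : V}
    (h : ∀ w : G.Walk u v, k < w.length) : (k : ℕ∞) < G.edist u v := by
  by_cases ht : G.edist u v = ⊤
  · rw [ht]
    exact ENat.natCast_lt_top k
  · obtain ⟨w, hw⟩ := SimpleGraph.exists_walk_of_edist_ne_top ht
    rw [← hw]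
    exact_mod_cast h w

/-- Every (finite, simple) claw-free cubic graph is `(1, 1, 2, 3)`-packing colourable. -/
theorem result (V : Type u) [Fintype V] [DecidableEq V] (G : SimpleGraph V) [DecidableRel G.Adj]
    (hG : G.IsRegularOfDegree 3) (hc : ClawFree G) : PackingColourable G ![1, 1, 2, 3] := by
  classical
  obtain ⟨X2, X3, h2, h3, c, hcc⟩ := main (cf_of G hG hc)
  refine ⟨fun v => if v ∈ X2 then 2 else if v ∈ X3 then 3 else if c v = 0 then 0 else 1, ?_⟩
  have hout : ∀ i : Fin 4, (i = 0 ∨ i = 1) → IsPacking G 1 {v | (if v ∈ X2 then (2 : Fin 4)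
      else if v ∈ X3 then 3 else if c v = 0 then 0 else 1) = i} := by
    intro i hi u hu v hv huv
    refine lt_edist fun w => ?_
    by_contra hlen
    rw [not_lt] at hlen
    have ha : G.Adj u v := by
      match w, hlen with
      | .nil, _ => exact (huv rfl).elim
      | .cons ha .nil, _ => exact ha
      | .cons _ (.cons _ _), hlen => simp at hlen
    simp only [Set.mem_ofPred_eq] at hu hv
    have hu2 : u ∉ X2 := by
      intro h'
      rw [if_pos h'] at hu
      rcases hi with rfl | rfl <;> exact absurd hu (by decide)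
    have hv2 : v ∉ X2 := by
      intro h'
      rw [if_pos h'] at hv
      rcases hi with rfl | rfl <;> exact absurd hv (by decide)
    rw [if_neg hu2] at hu
    rw [if_neg hv2] at hv
    have hu3 : u ∉ X3 := by
      intro h'
      rw [if_pos h'] at hu
      rcases hi with rfl | rfl <;> exact absurd hu (by decide)
    have hv3 : v ∉ X3 := by
      intro h'
      rw [if_pos h'] at hv
      rcases hi with rfl | rfl <;> exact absurd hv (by decide)
    rw [if_neg hu3] at hu
    rw [if_neg hv3] at hv
    apply hcc u v hu2 hu3 hv2 hv3 ha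
    by_cases e1 : c u = 0
    · by_cases e2 : c v = 0
      · rw [e1, e2]
      · rw [if_pos e1] at hu
        rw [if_neg e2] at hv
        exact absurd (hu.trans hv.symm) (by decide)
    · by_cases e2 : c v = 0
      · rw [if_neg e1] at hu
        rw [if_pos e2] at hv
        exact absurd (hu.trans hv.symm) (by decide)
      · have g1 : ∀ x : Fin 2, x ≠ 0 → x = 1 := by decide
        rw [g1 _ e1, g1 _ e2]
  intro i
  fin_cases i
  · exact hout 0 (Or.inl rfl)
  · exact hout 1 (Or.inr rfl)
  · intro u hu v hv huv
    have hmem : ∀ x : V, (if x ∈ X2 then (2 : Fin 4) else if x ∈ X3 then 3 else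
        if c x = 0 then 0 else 1) = 2 → x ∈ X2 := by
      intro x hx
      by_contra h'
      rw [if_neg h'] at hx
      split_ifs at hx <;> exact absurd hx (by decide)
    obtain ⟨h4, h5⟩ := h2 u (hmem u hu) v (hmem v hv) huv
    refine lt_edist fun w => ?_
    by_contra hlen
    rw [not_lt] at hlen
    match w, hlen with
    | .nil, _ => exact huv rfl
    | .cons ha .nil, _ => exact h4 ha
    | .cons ha (.cons hb .nil), _ => exact h5 _ ha hb
    | .cons _ (.cons _ (.cons _ _)), hlen => simp at hlen
  · intro u hu v hv huv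
    have hmem : ∀ x : V, (if x ∈ X2 then (2 : Fin 4) else if x ∈ X3 then 3 else
        if c x = 0 then 0 else 1) = 3 → x ∈ X3 := by
      intro x hx
      by_contra h'
      by_cases h'' : x ∈ X2
      · rw [if_pos h''] at hx
        exact absurd hx (by decide)
      · rw [if_neg h'', if_neg h'] at hx
        split_ifs at hx <;> exact absurd hx (by decide)
    obtain ⟨h4, h5, h6⟩ := h3 u (hmem u hu) v (hmem v hv) huv
    refine lt_edist fun w => ?_
    by_contra hlen
    rw [not_lt] at hlen
    match w, hlen with
    | .nil, _ => exact huv rfl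
    | .cons ha .nil, _ => exact h4 ha
    | .cons ha (.cons hb .nil), _ => exact h5 _ ha hb
    | .cons ha (.cons hb (.cons hd .nil)), _ => exact h6 _ _ ha hb hd
    | .cons _ (.cons _ (.cons _ (.cons _ _))), hlen =>
      simp at hlen
      omega

end Pool.Agent.Results.MP_b5f1b3_co.ClawFreeCubic
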